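import Pool.Agent.E8helper30.RG.Stm

/-!
A graph without triangles and 4-cycles has at most `n √(n-1) / 2` edges (piece `S_B` of the project RG).
-/

set_option autoImplicit false

namespace Pool.Agent.E8helper13.RG

open Pool.Agent.E8helper30.RG
open scoped Classical

theorem sum_nbr {n : ℕ} (G : SimpleGraph (Fin n))
    (h3 : ∀ x y z, G.Adj x y → G.Adj y z → G.Adj z x → False)
    (h4 : ∀ x y z w, G.Adj x y → G.Adj y z → G.Adj z w → G.Adj w x → x ≠ z → y ≠ w → False)
    (v : Fin n) : ∑ u ∈ G.neighborFinset v, G.degree u ≤ n - 1 := by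
  have h1 : ∑ u ∈ G.neighborFinset v, G.degree u =
      ((G.neighborFinset v).sigma fun u => G.neighborFinset u).card := by
    rw [Finset.card_sigma]
    rfl
  have h2 : ((Finset.univ : Finset (Fin n)).erase v).card = n - 1 := by
    rw [Finset.card_erase_of_mem (Finset.mem_univ v), Finset.card_univ, Fintype.card_fin]
  rw [h1, ← h2]
  apply Finset.card_le_card_of_injOn (fun p => if p.2 = v then p.1 else p.2)
  · rintro ⟨u, w⟩ hp
    rw [Finset.mem_coe, Finset.mem_sigma, SimpleGraph.mem_neighborFinset,
      SimpleGraph.mem_neighborFinset] at hp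
    obtain ⟨hu, hw⟩ := hp
    rw [Finset.mem_coe, Finset.mem_erase]
    refine ⟨?_, Finset.mem_univ _⟩
    dsimp only
    split_ifs with h
    · exact hu.ne.symm
    · exact h
  · rintro ⟨u, w⟩ hp ⟨u', w'⟩ hp' heq
    rw [Finset.mem_coe, Finset.mem_sigma, SimpleGraph.mem_neighborFinset,
      SimpleGraph.mem_neighborFinset] at hp hp'
    obtain ⟨hu, hw⟩ := hp
    obtain ⟨hu', hw'⟩ := hp'
    dsimp only at hu hw hu' hw' heq
    by_cases h : w = v
    · by_cases h' : w' = v
      · rw [if_pos h, if_pos h'] at heq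
        subst heq h h'
        rfl
      · rw [if_pos h, if_neg h'] at heq
        subst heq
        exact (h3 v u' u hu' hw' hu.symm).elim
    · by_cases h' : w' = v
      · rw [if_neg h, if_pos h'] at heq
        subst heq
        exact (h3 v u w hu hw hu'.symm).elim
      · rw [if_neg h, if_neg h'] at heq
        subst heq
        by_cases huu : u = u'
        · subst huu
          rfl
        · exact (h4 v u w u' hu hw hw'.symm hu'.symm (fun e => h e.symm) huu).elim

theorem t_B : S_B := by
  intro n G h3 h4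
  have h1 : ∑ v : Fin n, ∑ u ∈ G.neighborFinset v, G.degree u = ∑ u : Fin n, G.degree u ^ 2 := by
    have : ∀ v : Fin n, ∑ u ∈ G.neighborFinset v, G.degree u =
        ∑ u : Fin n, if G.Adj v u then G.degree u else 0 := by
      intro v
      rw [← Finset.sum_filter]
      apply Finset.sum_congr _ fun _ _ => rfl
      ext u
      simp
    simp_rw [this]
    rw [Finset.sum_comm]
    apply Finset.sum_congr rfl
    intro u _
    rw [← Finset.sum_filter, Finset.sum_const, smul_eq_mul, sq]
    congr 1
    rw [← SimpleGraph.card_neighborFinset_eq_degree]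
    congr 1
    ext v
    simp [G.adj_comm]
  have h2 : ∑ u : Fin n, G.degree u ^ 2 ≤ n * (n - 1) := by
    rw [← h1]
    calc ∑ v : Fin n, ∑ u ∈ G.neighborFinset v, G.degree u ≤ ∑ _v : Fin n, (n - 1) :=
          Finset.sum_le_sum fun v _ => sum_nbr G h3 h4 v
      _ = n * (n - 1) := by simp
  have h5 : G.edgeSet.ncard = G.edgeFinset.card := by
    rw [← SimpleGraph.coe_edgeFinset, Set.ncard_coe_finset]
  have h6 := G.sum_degrees_eq_twice_card_edges
  have h7 := sq_sum_le_card_mul_sum_sq (s := (Finset.univ : Finset (Fin n)))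
    (f := fun v => G.degree v)
  rw [Finset.card_univ, Fintype.card_fin, h6] at h7
  rw [h5]
  calc 4 * G.edgeFinset.card ^ 2 = (2 * G.edgeFinset.card) ^ 2 := by ring
    _ ≤ n * ∑ u : Fin n, G.degree u ^ 2 := h7
    _ ≤ n * (n * (n - 1)) := Nat.mul_le_mul_left _ h2
    _ = n ^ 2 * (n - 1) := by ring

end Pool.Agent.E8helper13.RG
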